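import Pool.Agent.W93.CU2

/-! Biased sum-of-digits walks: the tails in terms of the numbers of distinct subsequences. -/

set_option autoImplicit false

namespace Pool.Agent.Y21.CUB

open Finset W93.CU

/-- weight of a word with `i` ones and `j` zeros on the line `i - j = k` -/
noncomputable def wtp (p : ℝ) (k : ℤ) (i j : ℕ) : ℝ :=
  if (i : ℤ) - j = k then p ^ i * (1 - p) ^ j else 0

lemma wtp_left (p : ℝ) (k : ℤ) (i j : ℕ) : wtp p k (i + 1) j = p * wtp p (k - 1) i j := by
  unfold wtp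
  by_cases h : (i : ℤ) - j = k - 1
  · rw [if_pos h, if_pos (by push_cast; omega), pow_succ]; ring
  · rw [if_neg h, if_neg (by push_cast; omega)]; simp

lemma wtp_right (p : ℝ) (k : ℤ) (i j : ℕ) : wtp p k i (j + 1) = (1 - p) * wtp p (k + 1) i j := by
  unfold wtp
  by_cases h : (i : ℤ) - j = k + 1
  · rw [if_pos h, if_pos (by push_cast; omega), pow_succ]; ring
  · rw [if_neg h, if_neg (by push_cast; omega)]; simp

/-- weighted sum of an array -/
noncomputable def Gp (p : ℝ) (L : ℕ) (f : ℕ → ℕ → ℕ) (k : ℤ) : ℝ :=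
  ∑ i ∈ range L, ∑ j ∈ range L, wtp p k i j * (f i j : ℝ)

lemma Gp_shift_left (p : ℝ) (L : ℕ) (f g : ℕ → ℕ → ℕ) (h0 : ∀ j, f 0 j = 0)
    (hs : ∀ i j, f (i + 1) j = g i j) (hL : ∀ j, g L j = 0) (k : ℤ) :
    Gp p (L + 1) f k = p * Gp p (L + 1) g (k - 1) := by
  unfold Gp
  rw [Finset.sum_range_succ' (fun i => ∑ j ∈ range (L+1), wtp p k i j * (f i j:ℝ)) L,
    Finset.sum_range_succ (fun i => ∑ j ∈ range (L+1), wtp p (k-1) i j * (g i j:ℝ)) L]
  simp only [h0, hL, hs]
  simp only [Nat.cast_zero, mul_zero, Finset.sum_const_zero, add_zero]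
  rw [Finset.mul_sum]
  refine Finset.sum_congr rfl fun i _ => ?_
  rw [Finset.mul_sum]
  refine Finset.sum_congr rfl fun j _ => ?_
  rw [wtp_left]; ring

lemma Gp_shift_right (p : ℝ) (L : ℕ) (f g : ℕ → ℕ → ℕ) (h0 : ∀ i, f i 0 = 0)
    (hs : ∀ i j, f i (j + 1) = g i j) (hL : ∀ i, g i L = 0) (k : ℤ) :
    Gp p (L + 1) f k = (1 - p) * Gp p (L + 1) g (k + 1) := by
  unfold Gp
  rw [Finset.mul_sum]
  refine Finset.sum_congr rfl fun i _ => ?_
  rw [Finset.sum_range_succ' (fun j => wtp p k i j * (f i j:ℝ)) L,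
    Finset.sum_range_succ (fun j => wtp p (k+1) i j * (g i j:ℝ)) L]
  simp only [h0, hL, hs]
  simp only [Nat.cast_zero, mul_zero, add_zero]
  rw [Finset.mul_sum]
  refine Finset.sum_congr rfl fun j _ => ?_
  rw [wtp_right]; ring

lemma Gp_N (p : ℝ) (L : ℕ) (w : List Bool) (k : ℤ) :
    Gp p (L+1) (N w) k = (if k = 0 then 1 else 0) + Gp p (L+1) (c1 w) k + Gp p (L+1) (c0 w) k := by
  unfold Gp N
  push_cast
  simp only [mul_add, Finset.sum_add_distrib]
  congr 2
  rw [Finset.sum_eq_single 0]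
  · rw [Finset.sum_eq_single 0]
    · simp [wtp, eq_comm]
    · intro j _ hj
      rw [if_neg (by simp [hj])]; simp
    · intro h; simp at h
  · intro i _ hi
    refine Finset.sum_eq_zero fun j _ => ?_
    rw [if_neg (by simp [hi])]; simp
  · intro h; simp at h

/-- tails of the two measures attached to a word, for the walk which steps up with probability
`p` -/
noncomputable def tlp (p : ℝ) : List Bool → (ℤ → ℝ) × (ℤ → ℝ)
  | [] => (one0, one0)
  | true :: w => (fun k => p * (tlp p w).1 (k-1) + (1 - p) * (tlp p w).2 (k+1), (tlp p w).2)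
  | false :: w => ((tlp p w).1, fun k => p * (tlp p w).1 (k-1) + (1 - p) * (tlp p w).2 (k+1))

theorem tlp_formula (p : ℝ) (hp0 : p ≠ 0) (hp1 : 1 - p ≠ 0) (L : ℕ) (w : List Bool)
    (hw : w.length ≤ L) (k : ℤ) :
    (tlp p w).1 k = one0 k + Gp p (L+1) (c1 w) k - (1 - p) / p * Gp p (L+1) (c1 w) (k+1) ∧
    (tlp p w).2 k = one0 k + p / (1 - p) * Gp p (L+1) (c0 w) (k-2) -
      Gp p (L+1) (c0 w) (k-1) := by
  induction w generalizing k with
  | nil =>
    have z : ∀ k, Gp p (L+1) (fun _ _ => 0) k = 0 := by intro k; simp [Gp]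
    have e1 : c1 [] = fun _ _ => 0 := rfl
    have e0 : c0 [] = fun _ _ => 0 := rfl
    rw [e1, e0]
    simp [tlp, z]
  | cons b w ih =>
    have hw' : w.length ≤ L := by simp at hw; omega
    have hw2 : w.length < L := by simp at hw; omega
    have ihh := fun k => ih hw' k
    have half : ∀ k : ℤ, p * one0 (k-1) + (1 - p) * one0 (k+1) =
        one0 k + (p * (if k - 1 = 0 then (1:ℝ) else 0) - (1 - p) * (if k = 0 then 1 else 0)) := by
      intro k
      unfold one0
      rcases lt_trichotomy k 0 with h | h | h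
      · rw [if_pos (by omega), if_pos (by omega), if_pos (by omega), if_neg (by omega),
          if_neg (by omega)]
        ring
      · subst h; norm_num
      · rcases eq_or_ne k 1 with h1 | h1
        · subst h1; norm_num
        · rw [if_neg (by omega), if_neg (by omega), if_neg (by omega), if_neg (by omega),
            if_neg (by omega)]
          ring
    have main : ∀ k : ℤ, p * (tlp p w).1 (k-1) + (1 - p) * (tlp p w).2 (k+1) =
        one0 k + p * Gp p (L+1) (N w) (k-1) - (1 - p) * Gp p (L+1) (N w) k := by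
      intro k
      rw [(ihh (k-1)).1, (ihh (k+1)).2, Gp_N, Gp_N]
      have := half k
      rw [show k - 1 + 1 = k by ring, show k + 1 - 2 = k - 1 by ring, show k + 1 - 1 = k by ring]
      have e1 : p * (one0 (k - 1) + Gp p (L+1) (c1 w) (k-1) -
          (1 - p) / p * Gp p (L+1) (c1 w) k) =
          p * one0 (k - 1) + p * Gp p (L+1) (c1 w) (k-1) - (1 - p) * Gp p (L+1) (c1 w) k := by
        field_simp
      have e2 : (1 - p) * (one0 (k + 1) + p / (1 - p) * Gp p (L+1) (c0 w) (k-1) -
          Gp p (L+1) (c0 w) k) =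
          (1 - p) * one0 (k + 1) + p * Gp p (L+1) (c0 w) (k-1) -
            (1 - p) * Gp p (L+1) (c0 w) k := by
        field_simp
      rw [e1, e2]
      linear_combination this
    cases b with
    | true =>
      have sh : ∀ k, Gp p (L+1) (c1 (true :: w)) k = p * Gp p (L+1) (N w) (k-1) :=
        fun k => Gp_shift_left p L _ _ (fun j => rfl) (fun i j => rfl)
          (fun j => (supp w).1 L j hw2) k
      refine ⟨?_, ?_⟩
      · show p * (tlp p w).1 (k-1) + (1 - p) * (tlp p w).2 (k+1) = _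
        rw [main k, sh, sh, show k + 1 - 1 = k by ring]
        field_simp
      · exact (ihh k).2
    | false =>
      have sh : ∀ k, Gp p (L+1) (c0 (false :: w)) k = (1 - p) * Gp p (L+1) (N w) (k+1) :=
        fun k => Gp_shift_right p L _ _ (fun j => rfl) (fun i j => rfl)
          (fun i => (supp w).2 i L hw2) k
      refine ⟨?_, ?_⟩
      · exact (ihh k).1
      · show p * (tlp p w).1 (k-1) + (1 - p) * (tlp p w).2 (k+1) = _
        rw [main k, sh, sh, show k - 2 + 1 = k - 1 by ring, show k - 1 + 1 = k by ring]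
        field_simp

/-- the tail of the mixture -/
theorem mix_formula (p : ℝ) (hp0 : p ≠ 0) (hp1 : 1 - p ≠ 0) (L : ℕ) (w : List Bool)
    (hw : w.length ≤ L) (k : ℤ) :
    p * (tlp p w).1 (k-1) + (1 - p) * (tlp p w).2 (k+1) =
      one0 k + p * Gp p (L+1) (N w) (k-1) - (1 - p) * Gp p (L+1) (N w) k := by
  have half : ∀ k : ℤ, p * one0 (k-1) + (1 - p) * one0 (k+1) =
      one0 k + (p * (if k - 1 = 0 then (1:ℝ) else 0) - (1 - p) * (if k = 0 then 1 else 0)) := by
    intro k
    unfold one0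
    rcases lt_trichotomy k 0 with h | h | h
    · rw [if_pos (by omega), if_pos (by omega), if_pos (by omega), if_neg (by omega),
        if_neg (by omega)]
      ring
    · subst h; norm_num
    · rcases eq_or_ne k 1 with h1 | h1
      · subst h1; norm_num
      · rw [if_neg (by omega), if_neg (by omega), if_neg (by omega), if_neg (by omega),
          if_neg (by omega)]
        ring
  rw [(tlp_formula p hp0 hp1 L w hw (k-1)).1, (tlp_formula p hp0 hp1 L w hw (k+1)).2, Gp_N, Gp_N]
  have := half k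
  rw [show k - 1 + 1 = k by ring, show k + 1 - 2 = k - 1 by ring, show k + 1 - 1 = k by ring]
  have e1 : p * (one0 (k - 1) + Gp p (L+1) (c1 w) (k-1) -
      (1 - p) / p * Gp p (L+1) (c1 w) k) =
      p * one0 (k - 1) + p * Gp p (L+1) (c1 w) (k-1) - (1 - p) * Gp p (L+1) (c1 w) k := by
    field_simp
  have e2 : (1 - p) * (one0 (k + 1) + p / (1 - p) * Gp p (L+1) (c0 w) (k-1) -
      Gp p (L+1) (c0 w) k) =
      (1 - p) * one0 (k + 1) + p * Gp p (L+1) (c0 w) (k-1) -
        (1 - p) * Gp p (L+1) (c0 w) k := by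
    field_simp
  rw [e1, e2]
  linear_combination this

/-- the sum on the line `i = j` -/
lemma Gp_zero (p : ℝ) (L : ℕ) (f : ℕ → ℕ → ℕ) :
    Gp p L f 0 = ∑ i ∈ range L, (p * (1 - p)) ^ i * f i i := by
  unfold Gp
  refine Finset.sum_congr rfl fun i hi => ?_
  rw [Finset.sum_eq_single i]
  · unfold wtp
    rw [if_pos (by simp), mul_pow]
  · intro j _ hj
    unfold wtp
    rw [if_neg (by omega)]; simp
  · intro h; exact absurd hi h

/-- the sum on the line `j = i + 1` -/
lemma Gp_neg_one (p : ℝ) (L : ℕ) (f : ℕ → ℕ → ℕ) (hf : ∀ i, f i L = 0) :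
    p * Gp p L f (-1) = ∑ i ∈ range L, (p * (1 - p)) ^ (i + 1) * f i (i+1) := by
  unfold Gp
  rw [Finset.mul_sum]
  refine Finset.sum_congr rfl fun i hi => ?_
  have hi' : i < L := by simpa using hi
  by_cases h : i + 1 < L
  · rw [Finset.sum_eq_single (i+1)]
    · unfold wtp
      rw [if_pos (by push_cast; ring), mul_pow, pow_succ]
      ring
    · intro j _ hj
      unfold wtp
      rw [if_neg (by omega)]; simp
    · intro h'; exact absurd (by simpa using h) h'
  · have e : i + 1 = L := by omega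
    rw [e, hf i]
    simp only [Nat.cast_zero, mul_zero]
    rw [Finset.sum_eq_zero, mul_zero]
    intro j hj
    have : j < L := by simpa using hj
    unfold wtp
    rw [if_neg (by omega)]; simp

/-- **Exact formula** for the probability that the stopped walk is nonnegative. -/
theorem tail_exact (p : ℝ) (hp0 : p ≠ 0) (hp1 : 1 - p ≠ 0) (L : ℕ) (w : List Bool)
    (hw : w.length ≤ L) :
    p * (tlp p w).1 (0 - 1) + (1 - p) * (tlp p w).2 (0 + 1) = p +
      ∑ k ∈ range (L+1), (p * (1 - p)) ^ (k + 1) *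
        ((N w k (k+1) : ℝ) - (1 - p) * (N w (k+1) (k+1) : ℝ)) := by
  rw [mix_formula p hp0 hp1 L w hw 0, show (0 : ℤ) - 1 = -1 by norm_num,
    Gp_neg_one p _ _ (fun i => (supp w).2 i (L+1) (by omega)), Gp_zero]
  rw [Finset.sum_range_succ' (fun i => (p * (1 - p)) ^ i * (N w i i : ℝ)) L]
  have h0 : N w 0 0 = 1 := by simp [N, c1_zero, c0_zero]
  have last : N w (L+1) (L+1) = 0 := (supp w).2 _ _ (by omega)
  have e2 : ∑ k ∈ range (L+1), (p * (1 - p)) ^ (k + 1) *
        ((N w k (k+1) : ℝ) - (1 - p) * (N w (k+1) (k+1) : ℝ)) =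
      ∑ k ∈ range (L+1), (p * (1 - p)) ^ (k + 1) * (N w k (k+1) : ℝ) -
      ∑ k ∈ range (L+1), (p * (1 - p)) ^ (k + 1) * ((1 - p) * (N w (k+1) (k+1) : ℝ)) := by
    rw [← Finset.sum_sub_distrib]
    exact Finset.sum_congr rfl fun k _ => by ring
  simp only [pow_zero, one_mul, h0, Nat.cast_one]
  have e1 : ∑ k ∈ range (L+1), (p * (1 - p)) ^ (k + 1) * ((1 - p) * (N w (k+1) (k+1) : ℝ)) =
      (1 - p) * ∑ k ∈ range L, (p * (1 - p)) ^ (k + 1) * (N w (k+1) (k+1) : ℝ) := by
    rw [Finset.sum_range_succ, last, Finset.mul_sum]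
    simp only [Nat.cast_zero, mul_zero, add_zero]
    exact Finset.sum_congr rfl fun k _ => by ring
  rw [e2, e1, one0, if_pos le_rfl]
  ring

end Pool.Agent.Y21.CUB
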