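import Pool.Agent.W93.CU2

/-! Words in which all runs of ones are long: equality cases of the deletion inequality. -/

set_option autoImplicit false

namespace Pool.Agent.Y21.CUB

open Finset W93.CU Polynomial

/-- the length of the first run of ones, and the lengths of the other runs -/
def gp : List Bool → ℕ × List ℕ
  | [] => (0, [])
  | true :: w => ((gp w).1 + 1, (gp w).2)
  | false :: w => (0, (gp w).1 :: (gp w).2)

lemma gp_length (w : List Bool) : (gp w).2.length = w.count false := by
  induction w with
  | nil => rfl
  | cons b w ih =>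
    cases b with
    | true => rw [List.count_cons_of_ne (by decide)]; exact ih
    | false => rw [List.count_cons_self, ← ih]; rfl

lemma gp_sum (w : List Bool) : (gp w).1 + (gp w).2.sum = w.count true := by
  induction w with
  | nil => rfl
  | cons b w ih =>
    cases b with
    | true => rw [List.count_cons_self, ← ih]; simp only [gp]; ring
    | false =>
      rw [List.count_cons_of_ne (by decide), ← ih]
      simp only [gp, List.sum_cons, zero_add]

/-- if all runs are long then all the counts are binomial coefficients -/
lemma full (m : ℕ) (w : List Bool) (h : ∀ g ∈ (gp w).2, m ≤ g) :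
    (∀ i k, i ≤ m → k + 1 ≤ (gp w).2.length → c0 w i (k + 1) = (i + k).choose i) ∧
    (∀ i k, i ≤ m → i ≤ (gp w).1 → k ≤ (gp w).2.length → N w i k = (i + k).choose i) := by
  induction w with
  | nil =>
    refine ⟨fun i k _ hk => ?_, fun i k _ hi hk => ?_⟩
    · simp [gp] at hk
    · have hi0 : i = 0 := by simpa [gp] using hi
      have hk0 : k = 0 := by simpa [gp] using hk
      subst hi0; subst hk0
      simp [N]
  | cons b w ih =>
    cases b with
    | true =>
      have ihh := ih h
      refine ⟨fun i k hi hk => by simpa using ihh.1 i k hi hk, fun i k hi hi' hk => ?_⟩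
      have hk' : k ≤ (gp w).2.length := hk
      have hi2 : i ≤ (gp w).1 + 1 := hi'
      cases i with
      | zero =>
        cases k with
        | zero => simp [N, c1_zero, c0_zero]
        | succ k =>
          have := ihh.1 0 k (Nat.zero_le _) hk'
          simp [N, c1_zero, this]
      | succ i =>
        have h1 := ihh.2 i k (by omega) (by omega) hk'
        have e : ¬ (i + 1 = 0 ∧ k = 0) := by omega
        have hN : N (true :: w) (i+1) k = N w i k + c0 w (i+1) k := by
          show (if i + 1 = 0 ∧ k = 0 then 1 else 0) + N w i k + c0 w (i+1) k = _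
          rw [if_neg e, zero_add]
        rw [hN, h1]
        cases k with
        | zero => simp [c0_zero]
        | succ k =>
          rw [ihh.1 (i+1) k hi hk', show i + 1 + (k + 1) = (i + (k + 1)) + 1 by ring,
            Nat.choose_succ_succ, show i + 1 + k = i + (k + 1) by ring]
    | false =>
      have hh : m ≤ (gp w).1 ∧ ∀ g ∈ (gp w).2, m ≤ g := by
        refine ⟨h _ ?_, fun g hg => h g ?_⟩
        · exact List.mem_cons_self
        · exact List.mem_cons_of_mem _ hg
      have ihh := ih hh.2
      refine ⟨fun i k hi hk => ?_, fun i k hi hi' hk => ?_⟩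
      · rw [c0_false_succ]
        have hk' : k + 1 ≤ (gp w).2.length + 1 := hk
        exact ihh.2 i k hi (hi.trans hh.1) (by omega)
      · have hi0 : i = 0 := Nat.le_zero.mp hi'
        subst hi0
        cases k with
        | zero => simp [N, c1_zero, c0_zero]
        | succ k =>
          have hk' : k + 1 ≤ (gp w).2.length + 1 := hk
          have h2 := ihh.2 0 k (Nat.zero_le _) (Nat.zero_le _) (by omega)
          have hN : N (false :: w) 0 (k+1) = c1 w 0 (k+1) + N w 0 k := by
            show (if (0:ℕ) = 0 ∧ k + 1 = 0 then 1 else 0) + c1 w 0 (k+1) + N w 0 k = _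
            simp
          rw [hN, h2, c1_zero]
          simp

/-- if all runs of ones are at least as long as the number of zeros, then the deletion inequality
is an equality on the diagonal -/
theorem rich_eq (w : List Bool) (h1 : w.count false ≤ (gp w).1)
    (h : ∀ g ∈ (gp w).2, w.count false ≤ g) (k : ℕ) :
    N w (k+1) (k+1) = 2 * N w k (k+1) := by
  by_cases hk : k + 1 ≤ w.count false
  · have hf := (full (w.count false) w h).2
    rw [hf (k+1) (k+1) hk (hk.trans h1) (by rw [gp_length]; exact hk),
      hf k (k+1) (by omega) (by omega) (by rw [gp_length]; exact hk)]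
    have h2 := Nat.add_one_mul_choose_eq (2 * k + 1) k
    have h3 : (k + 1) * (k + 1 + (k + 1)).choose (k + 1) =
        (k + 1) * (2 * (k + (k + 1)).choose k) := by
      have e1 : k + 1 + (k + 1) = 2 * (k + 1) := by ring
      have e2 : k + (k + 1) = 2 * k + 1 := by ring
      rw [e1, e2]
      have h4 : 2 * k + 1 + 1 = 2 * (k + 1) := by ring
      rw [h4] at h2
      calc (k + 1) * (2 * (k + 1)).choose (k + 1) = (2 * (k + 1)).choose (k + 1) * (k + 1) :=
            mul_comm _ _
        _ = 2 * (k + 1) * (2 * k + 1).choose k := h2.symm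
        _ = (k + 1) * (2 * (2 * k + 1).choose k) := by ring
    exact Nat.eq_of_mul_eq_mul_left (Nat.succ_pos k) h3
  · have a := supp0 w (k+1) (k+1) (by omega)
    have b := supp0 w k (k+1) (by omega)
    have e : ¬ (k + 1 = 0 ∧ k + 1 = 0) := by omega
    have e' : ¬ (k = 0 ∧ k + 1 = 0) := by omega
    unfold N
    rw [if_neg e, if_neg e', a.1, a.2, b.1, b.2]

/-! ### the words that contain all zeros -/

/-- `1 + X + ... + X ^ a` -/
noncomputable def ff (a : ℕ) : ℤ[X] := ∑ b ∈ range (a + 1), X ^ b

noncomputable def PP (l : List ℕ) : ℤ[X] := (l.map ff).prod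

/-- the excess in the deletion inequality -/
noncomputable def Exc : List ℕ → ℤ[X]
  | [] => 0
  | a :: l => ((a : ℤ[X]) + 1) * X ^ a * PP l + ff a * Exc l

lemma PP_cons (a : ℕ) (l : List ℕ) : PP (a :: l) = ff a * PP l := by
  simp [PP]

lemma ff_mul (a : ℕ) : (1 - X) * ff a = 1 - X ^ (a + 1) := by
  unfold ff
  exact mul_neg_geom_sum X (a + 1)

lemma ff_deriv (a : ℕ) : (1 - X) * derivative (ff a) = ff a - ((a : ℤ[X]) + 1) * X ^ a := by
  have h := congrArg derivative (ff_mul a)
  rw [derivative_mul, derivative_sub, derivative_sub, derivative_one, derivative_X,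
    derivative_X_pow, Nat.add_sub_cancel] at h
  have h2 : (C ((a + 1 : ℕ) : ℤ) : ℤ[X]) = (a : ℤ[X]) + 1 := by simp
  rw [h2] at h
  linear_combination h

lemma exc_identity (l : List ℕ) :
    (1 - X) * derivative (PP l) = (l.length : ℤ[X]) * PP l - Exc l := by
  induction l with
  | nil => simp [PP, Exc]
  | cons a l ih =>
    rw [PP_cons, derivative_mul]
    have h := ff_deriv a
    simp only [Exc, List.length_cons]
    push_cast
    linear_combination PP l * h + ff a * ih

lemma exc_coeff (l : List ℕ) (i : ℕ) :
    ((i : ℤ) + 1) * (PP l).coeff (i + 1) + (Exc l).coeff i =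
      ((i : ℤ) + l.length) * (PP l).coeff i := by
  have h := congrArg (fun q : ℤ[X] => q.coeff i) (exc_identity l)
  simp only [sub_mul, one_mul, coeff_sub] at h
  have h1 : ((l.length : ℤ[X]) * PP l).coeff i = (l.length : ℤ) * (PP l).coeff i := by
    rw [← C_eq_natCast, coeff_C_mul]
  rw [h1, coeff_derivative] at h
  cases i with
  | zero =>
    rw [coeff_X_mul_zero] at h
    push_cast at h ⊢
    linear_combination h
  | succ i =>
    rw [coeff_X_mul, coeff_derivative] at h
    push_cast at h ⊢
    linear_combination h

lemma ff_coeff_mul (a : ℕ) (Q : ℤ[X]) (i : ℕ) :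
    (ff a * Q).coeff i = ∑ b ∈ range (a + 1), if b ≤ i then Q.coeff (i - b) else 0 := by
  unfold ff
  rw [Finset.sum_mul, finsetSum_coeff]
  refine Finset.sum_congr rfl fun b _ => ?_
  rw [coeff_X_pow_mul']

lemma ff_mul_lower (a : ℕ) (Q : ℤ[X]) (hQ : ∀ i, 0 ≤ Q.coeff i) (i b : ℕ) (hb : b ≤ a)
    (hbi : b ≤ i) : Q.coeff (i - b) ≤ (ff a * Q).coeff i := by
  rw [ff_coeff_mul]
  have h := Finset.single_le_sum (f := fun b => if b ≤ i then Q.coeff (i - b) else 0)
    (fun c _ => by
      split_ifs
      · exact hQ _
      · exact le_rfl) (Finset.mem_range.mpr (Nat.lt_succ_of_le hb))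
  rwa [if_pos hbi] at h

lemma ff_mul_nonneg (a : ℕ) (Q : ℤ[X]) (hQ : ∀ i, 0 ≤ Q.coeff i) (i : ℕ) :
    0 ≤ (ff a * Q).coeff i := by
  rw [ff_coeff_mul]
  refine Finset.sum_nonneg fun c _ => ?_
  split_ifs
  · exact hQ _
  · exact le_rfl

lemma PP_pos (l : List ℕ) : (∀ i, 0 ≤ (PP l).coeff i) ∧ ∀ i, i ≤ l.sum → 1 ≤ (PP l).coeff i := by
  induction l with
  | nil =>
    refine ⟨fun i => ?_, fun i hi => ?_⟩
    · simp only [PP, List.map_nil, List.prod_nil, coeff_one]
      split_ifs <;> norm_num
    · have : i = 0 := by simpa using hi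
      subst this
      simp [PP]
  | cons a l ih =>
    rw [PP_cons]
    refine ⟨fun i => ff_mul_nonneg a _ ih.1 i, fun i hi => ?_⟩
    rw [List.sum_cons] at hi
    have h := ff_mul_lower a (PP l) ih.1 i (i - l.sum) (by omega) (by omega)
    exact (ih.2 _ (by omega)).trans h

lemma Exc_pos (l : List ℕ) : (∀ i, 0 ≤ (Exc l).coeff i) ∧
    ∀ a ∈ l, ∀ i, a ≤ i → i ≤ l.sum → 1 ≤ (Exc l).coeff i := by
  induction l with
  | nil => exact ⟨fun i => by simp [Exc], fun a ha => by simp at ha⟩
  | cons c l ih =>
    have hc : ∀ i, ((((c : ℤ[X]) + 1) * X ^ c * PP l)).coeff i =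
        if c ≤ i then ((c : ℤ) + 1) * (PP l).coeff (i - c) else 0 := by
      intro i
      have h1 : ((c : ℤ[X]) + 1) * X ^ c * PP l = C ((c : ℤ) + 1) * (X ^ c * PP l) := by
        simp [mul_assoc]
      rw [h1, coeff_C_mul, coeff_X_pow_mul']
      split_ifs <;> simp
    have hc0 : ∀ i, 0 ≤ ((((c : ℤ[X]) + 1) * X ^ c * PP l)).coeff i := by
      intro i
      rw [hc]
      split_ifs
      · exact mul_nonneg (by positivity) ((PP_pos l).1 _)
      · exact le_rfl
    have hf0 : ∀ i, 0 ≤ (ff c * Exc l).coeff i := ff_mul_nonneg c _ ih.1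
    refine ⟨fun i => ?_, fun a ha i hai hi => ?_⟩
    · simp only [Exc, coeff_add]
      exact add_nonneg (hc0 i) (hf0 i)
    · simp only [Exc, coeff_add]
      rw [List.sum_cons] at hi
      rcases List.mem_cons.mp ha with rfl | ha
      · have h1 : 1 ≤ ((((a : ℤ[X]) + 1) * X ^ a * PP l)).coeff i := by
          rw [hc, if_pos hai]
          have h2 := (PP_pos l).2 (i - a) (by omega)
          nlinarith
        linarith [hf0 i]
      · have hal : a ≤ l.sum := List.single_le_sum (fun _ _ => Nat.zero_le _) a ha
        have h1 := ff_mul_lower c (Exc l) ih.1 i (i - l.sum) (by omega) (by omega)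
        have h2 := ih.2 a ha (i - (i - l.sum)) (by omega) (by omega)
        linarith [hc0 i]

/-- the counts of the subsequences that contain all zeros -/
lemma count_all (w : List Bool) :
    (∀ i, (if i = 0 ∧ w.count false = 0 then (1 : ℤ) else 0) + c0 w i (w.count false) =
      (PP (gp w).2).coeff i) ∧
    ∀ i, (N w i (w.count false) : ℤ) = (PP ((gp w).1 :: (gp w).2)).coeff i := by
  induction w with
  | nil =>
    have hf0 : ff 0 = 1 := by simp [ff]
    refine ⟨fun i => ?_, fun i => ?_⟩
    · simp only [gp, PP, List.map_nil, List.prod_nil, coeff_one, List.count_nil, c0_nil]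
      by_cases h : i = 0 <;> simp [h]
    · simp only [gp, PP_cons, hf0, one_mul]
      simp only [PP, List.map_nil, List.prod_nil, coeff_one, List.count_nil, N, c0_nil, c1_nil]
      by_cases h : i = 0 <;> simp [h]
  | cons b w ih =>
    cases b with
    | true =>
      have hc : (true :: w).count false = w.count false := List.count_cons_of_ne (by decide)
      rw [hc]
      refine ⟨fun i => by simpa [gp] using ih.1 i, fun i => ?_⟩
      have hff : ff ((gp w).1 + 1) = 1 + X * ff (gp w).1 := by
        unfold ff
        rw [Finset.sum_range_succ' (fun b => (X : ℤ[X]) ^ b), pow_zero, Finset.mul_sum, add_comm]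
        congr 1
        exact Finset.sum_congr rfl fun b _ => pow_succ' _ _
      have h1 : PP ((gp (true :: w)).1 :: (gp (true :: w)).2) =
          PP (gp w).2 + X * PP ((gp w).1 :: (gp w).2) := by
        show PP (((gp w).1 + 1) :: (gp w).2) = _
        rw [PP_cons, PP_cons, hff]
        ring
      rw [h1, coeff_add, ← ih.1 i]
      cases i with
      | zero =>
        rw [coeff_X_mul_zero]
        have : (N (true :: w) 0 (w.count false) : ℤ) =
            (if (0:ℕ) = 0 ∧ w.count false = 0 then (1 : ℤ) else 0) + c0 w 0 (w.count false) := by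
          unfold N
          rw [c1_zero, c0_true]
          push_cast
          ring
        rw [this]
        ring
      | succ i =>
        rw [coeff_X_mul, ← ih.2 i]
        have e : ¬ (i + 1 = 0 ∧ w.count false = 0) := by omega
        have : (N (true :: w) (i+1) (w.count false) : ℤ) =
            N w i (w.count false) + c0 w (i+1) (w.count false) := by
          unfold N
          rw [c1_true_succ, c0_true, if_neg e]
          unfold N
          push_cast
          ring
        rw [this, if_neg e]
        ring
    | false =>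
      have hc : (false :: w).count false = w.count false + 1 := List.count_cons_self
      rw [hc]
      have hf0 : ff 0 = 1 := by simp [ff]
      refine ⟨fun i => ?_, fun i => ?_⟩
      · have e : ¬ (i = 0 ∧ w.count false + 1 = 0) := by omega
        rw [if_neg e, zero_add, c0_false_succ]
        exact ih.2 i
      · have e : ¬ (i = 0 ∧ w.count false + 1 = 0) := by omega
        have h0 := (supp0 w i (w.count false + 1) (Nat.lt_succ_self _)).1
        have : N (false :: w) i (w.count false + 1) = N w i (w.count false) := by
          show (if i = 0 ∧ w.count false + 1 = 0 then 1 else 0) + c1 w i (w.count false + 1) +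
            N w i (w.count false) = _
          rw [if_neg e, h0]
          ring
        rw [this]
        show _ = (PP (0 :: (gp w).1 :: (gp w).2)).coeff i
        rw [PP_cons, hf0, one_mul]
        exact ih.2 i

/-- if some run of ones is shorter than the number of zeros, then some deletion inequality is
strict -/
theorem poor_strict (w : List Bool)
    (h : ∃ g ∈ (gp w).1 :: (gp w).2, g < w.count false) :
    ∃ k, k + 1 = min (w.count false) (w.count true + 1) ∧
      N w (k+1) (k+1) + 1 ≤ 2 * N w k (k+1) := by
  obtain ⟨g, hg, hlt⟩ := h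
  by_cases hfew : w.count true + 1 ≤ w.count false
  · refine ⟨w.count true, ?_, strict_of_few_ones w hfew⟩
    rw [min_eq_right hfew]
  · obtain ⟨k, hk⟩ : ∃ k, w.count false = k + 1 := ⟨w.count false - 1, by omega⟩
    refine ⟨k, ?_, ?_⟩
    · rw [min_eq_left (by omega), hk]
    · have hsum : ((gp w).1 :: (gp w).2).sum = w.count true := by
        rw [List.sum_cons]; exact gp_sum w
      have hE := (Exc_pos ((gp w).1 :: (gp w).2)).2 g hg k (by omega) (by omega)
      have hid := exc_coeff ((gp w).1 :: (gp w).2) k
      rw [List.length_cons, gp_length, hk] at hid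
      have hc := (count_all w).2
      rw [hk] at hc
      rw [← hc (k + 1), ← hc k] at hid
      push_cast at hid
      have h1 : ((k : ℤ) + 1) * (N w (k+1) (k+1) : ℤ) < ((k : ℤ) + 1) * (2 * (N w k (k+1) : ℤ)) := by
        nlinarith
      have h2 : (N w (k+1) (k+1) : ℤ) < 2 * (N w k (k+1) : ℤ) :=
        lt_of_mul_lt_mul_left h1 (by positivity)
      have h3 : N w (k+1) (k+1) < 2 * N w k (k+1) := by exact_mod_cast h2
      omega

end Pool.Agent.Y21.CUB
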