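import Pool.Agent.Y21.CUB.A
import Pool.Agent.Y21.CUB.B

/-! Distinct subsequences, runs, and the inequality for the tails. -/

set_option autoImplicit false

namespace Pool.Agent.Y21.CUB

open Finset W93.CU

/-- the number of distinct subsequences of `v` with `i` letters `true` and `j` letters `false` -/
def subs (v : List Bool) (i j : ℕ) : ℕ :=
  (v.sublists.toFinset.filter fun u => u.count true = i ∧ u.count false = j).card

/-- the number of letters `b` in `v` is at most the length of each of the pieces into which the
letters `b` cut `v` -/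
def LongRuns (b : Bool) (v : List Bool) : Prop := ∀ g ∈ v.splitOn b, v.count b ≤ g.length

/-! ### the counts -/

/-- those that begin with `b` -/
def TT (b : Bool) (v : List Bool) (i j : ℕ) : Finset (List Bool) :=
  v.sublists.toFinset.filter fun u => u.head? = some b ∧ u.count true = i ∧ u.count false = j

lemma mem_TT (b : Bool) (v : List Bool) (i j : ℕ) (u : List Bool) : u ∈ TT b v i j ↔
    u.Sublist v ∧ u.head? = some b ∧ u.count true = i ∧ u.count false = j := by
  unfold TT
  rw [Finset.mem_filter, List.mem_toFinset, List.mem_sublists]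

def SS (v : List Bool) (i j : ℕ) : Finset (List Bool) :=
  v.sublists.toFinset.filter fun u => u.count true = i ∧ u.count false = j

lemma mem_SS (v : List Bool) (i j : ℕ) (u : List Bool) : u ∈ SS v i j ↔
    u.Sublist v ∧ u.count true = i ∧ u.count false = j := by
  unfold SS
  rw [Finset.mem_filter, List.mem_toFinset, List.mem_sublists]

lemma SS_card (v : List Bool) (i j : ℕ) : (SS v i j).card =
    (if i = 0 ∧ j = 0 then 1 else 0) + (TT true v i j).card + (TT false v i j).card := by
  classical
  have h : SS v i j = (if i = 0 ∧ j = 0 then {[]} else ∅) ∪ (TT true v i j ∪ TT false v i j) := by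
    ext u
    rw [mem_SS, Finset.mem_union, Finset.mem_union, mem_TT, mem_TT]
    constructor
    · rintro ⟨h1, h2, h3⟩
      rcases u with _ | ⟨b, u⟩
      · left
        have e : i = 0 ∧ j = 0 := ⟨by rw [← h2]; rfl, by rw [← h3]; rfl⟩
        rw [if_pos e]
        exact Finset.mem_singleton_self _
      · right
        cases b
        · exact Or.inr ⟨h1, rfl, h2, h3⟩
        · exact Or.inl ⟨h1, rfl, h2, h3⟩
    · rintro (h1 | h1 | h1)
      · split_ifs at h1 with e
        · rw [Finset.mem_singleton] at h1
          subst h1
          exact ⟨List.nil_sublist _, e.1.symm, e.2.symm⟩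
        · exact absurd h1 (Finset.notMem_empty _)
      · exact ⟨h1.1, h1.2.2⟩
      · exact ⟨h1.1, h1.2.2⟩
  have d1 : Disjoint (TT true v i j) (TT false v i j) := by
    rw [Finset.disjoint_left]
    intro u h1 h2
    rw [mem_TT] at h1 h2
    rw [h1.2.1] at h2
    exact absurd h2.2.1 (by decide)
  have d2 : Disjoint (if i = 0 ∧ j = 0 then ({[]} : Finset (List Bool)) else ∅)
      (TT true v i j ∪ TT false v i j) := by
    rw [Finset.disjoint_left]
    intro u h1 h2
    split_ifs at h1 with e
    · rw [Finset.mem_singleton] at h1
      subst h1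
      rw [Finset.mem_union, mem_TT, mem_TT] at h2
      rcases h2 with h2 | h2 <;> exact absurd h2.2.1 (by simp)
    · exact absurd h1 (Finset.notMem_empty _)
  rw [h, Finset.card_union_of_disjoint d2, Finset.card_union_of_disjoint d1, ← add_assoc]
  congr 2
  split_ifs <;> simp

lemma c_eq (w : List Bool) : (∀ i j, c1 w i j = (TT true w i j).card) ∧
    ∀ i j, c0 w i j = (TT false w i j).card := by
  classical
  induction w with
  | nil =>
    have h : ∀ b i j, TT b [] i j = ∅ := by
      intro b i j
      rw [Finset.eq_empty_iff_forall_notMem]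
      intro u hu
      rw [mem_TT, List.sublist_nil] at hu
      obtain ⟨rfl, h2, _⟩ := hu
      exact absurd h2 (by simp)
    exact ⟨fun i j => by rw [h]; rfl, fun i j => by rw [h]; rfl⟩
  | cons b w ih =>
    have hN : ∀ i j, N w i j = (SS w i j).card := by
      intro i j
      rw [SS_card, ← ih.1, ← ih.2]
      rfl
    have hdiff : ∀ b b' : Bool, b' ≠ b → ∀ i j, TT b' (b :: w) i j = TT b' w i j := by
      intro b b' hb i j
      ext u
      rw [mem_TT, mem_TT]
      constructor
      · rintro ⟨h1, h2, h3⟩
        refine ⟨?_, h2, h3⟩
        rcases u with _ | ⟨c, u⟩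
        · exact List.nil_sublist _
        · have hc : c = b' := by simpa using h2
          subst hc
          rcases List.sublist_cons_iff.mp h1 with h4 | ⟨r, h4, _⟩
          · exact h4
          · rw [List.cons.injEq] at h4
            exact absurd h4.1 hb
      · rintro ⟨h1, h2, h3⟩
        exact ⟨h1.trans (List.sublist_cons_self _ _), h2, h3⟩
    cases b with
    | true =>
      refine ⟨fun i j => ?_, fun i j => ?_⟩
      · cases i with
        | zero =>
          rw [c1_true_zero]
          symm
          rw [Finset.card_eq_zero, Finset.eq_empty_iff_forall_notMem]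
          intro u hu
          rw [mem_TT] at hu
          rcases u with _ | ⟨c, u⟩
          · exact absurd hu.2.1 (by simp)
          · have hc : c = true := by simpa using hu.2.1
            subst hc
            have := hu.2.2.1
            rw [List.count_cons_self] at this
            omega
        | succ i =>
          rw [c1_true_succ, hN]
          have : TT true (true :: w) (i+1) j = (SS w i j).image (List.cons true) := by
            ext u
            rw [mem_TT, Finset.mem_image]
            constructor
            · rintro ⟨h1, h2, h3, h4⟩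
              rcases u with _ | ⟨c, u⟩
              · exact absurd h2 (by simp)
              · have hc : c = true := by simpa using h2
                subst hc
                refine ⟨u, ?_, rfl⟩
                rw [mem_SS]
                rw [List.count_cons_self] at h3
                rw [List.count_cons_of_ne (by decide)] at h4
                exact ⟨List.cons_sublist_cons.mp h1, by omega, h4⟩
            · rintro ⟨u', h1, rfl⟩
              rw [mem_SS] at h1
              refine ⟨List.cons_sublist_cons.mpr h1.1, rfl, ?_, ?_⟩
              · rw [List.count_cons_self, h1.2.1]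
              · rw [List.count_cons_of_ne (by decide), h1.2.2]
          rw [this, Finset.card_image_of_injective _ List.cons_injective]
      · rw [c0_true, hdiff true false (by decide)]
        exact ih.2 i j
    | false =>
      refine ⟨fun i j => ?_, fun i j => ?_⟩
      · rw [c1_false, hdiff false true (by decide)]
        exact ih.1 i j
      · cases j with
        | zero =>
          rw [c0_false_zero]
          symm
          rw [Finset.card_eq_zero, Finset.eq_empty_iff_forall_notMem]
          intro u hu
          rw [mem_TT] at hu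
          rcases u with _ | ⟨c, u⟩
          · exact absurd hu.2.1 (by simp)
          · have hc : c = false := by simpa using hu.2.1
            subst hc
            have := hu.2.2.2
            rw [List.count_cons_self] at this
            omega
        | succ j =>
          rw [c0_false_succ, hN]
          have : TT false (false :: w) i (j+1) = (SS w i j).image (List.cons false) := by
            ext u
            rw [mem_TT, Finset.mem_image]
            constructor
            · rintro ⟨h1, h2, h3, h4⟩
              rcases u with _ | ⟨c, u⟩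
              · exact absurd h2 (by simp)
              · have hc : c = false := by simpa using h2
                subst hc
                refine ⟨u, ?_, rfl⟩
                rw [mem_SS]
                rw [List.count_cons_self] at h4
                rw [List.count_cons_of_ne (by decide)] at h3
                exact ⟨List.cons_sublist_cons.mp h1, h3, by omega⟩
            · rintro ⟨u', h1, rfl⟩
              rw [mem_SS] at h1
              refine ⟨List.cons_sublist_cons.mpr h1.1, rfl, ?_, ?_⟩
              · rw [List.count_cons_of_ne (by decide), h1.2.1]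
              · rw [List.count_cons_self, h1.2.2]
          rw [this, Finset.card_image_of_injective _ List.cons_injective]

/-- `N` counts the distinct subsequences -/
theorem N_eq_subs (w : List Bool) (i j : ℕ) : N w i j = subs w i j := by
  have h : subs w i j = (SS w i j).card := rfl
  rw [h, SS_card, ← (c_eq w).1, ← (c_eq w).2]
  rfl

lemma subs_reverse (w : List Bool) (i j : ℕ) : subs w.reverse i j = subs w i j := by
  classical
  have h : SS w.reverse i j = (SS w i j).image List.reverse := by
    ext u
    rw [mem_SS, Finset.mem_image]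
    constructor
    · rintro ⟨h1, h2, h3⟩
      refine ⟨u.reverse, ?_, List.reverse_reverse u⟩
      rw [mem_SS, List.count_reverse, List.count_reverse]
      refine ⟨?_, h2, h3⟩
      have := List.reverse_sublist.mpr h1
      rwa [List.reverse_reverse] at this
    · rintro ⟨u', h1, rfl⟩
      rw [mem_SS] at h1
      rw [List.count_reverse, List.count_reverse]
      exact ⟨List.reverse_sublist.mpr h1.1, h1.2⟩
  have h2 : subs w.reverse i j = (SS w.reverse i j).card := rfl
  rw [h2, h, Finset.card_image_of_injective _ List.reverse_injective]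
  rfl

lemma c_not (w : List Bool) : ∀ i j, c1 (w.map not) i j = c0 w j i ∧
    c0 (w.map not) i j = c1 w j i := by
  induction w with
  | nil => intro i j; exact ⟨rfl, rfl⟩
  | cons b w ih =>
    intro i j
    have hN : ∀ i j, N (w.map not) i j = N w j i := by
      intro i j
      unfold N
      rw [(ih i j).1, (ih i j).2]
      have : (if i = 0 ∧ j = 0 then 1 else 0) = (if j = 0 ∧ i = 0 then 1 else 0) := by
        by_cases h : i = 0 ∧ j = 0
        · rw [if_pos h, if_pos h.symm]
        · rw [if_neg h, if_neg (fun h' => h h'.symm)]
      rw [this]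
      ring
    cases b with
    | true =>
      show c1 (false :: w.map not) i j = _ ∧ c0 (false :: w.map not) i j = _
      refine ⟨by rw [c1_false, c0_true]; exact (ih i j).1, ?_⟩
      cases j with
      | zero => rfl
      | succ j => rw [c0_false_succ, c1_true_succ]; exact hN i j
    | false =>
      show c1 (true :: w.map not) i j = _ ∧ c0 (true :: w.map not) i j = _
      refine ⟨?_, by rw [c0_true, c1_false]; exact (ih i j).2⟩
      cases i with
      | zero => rfl
      | succ i => rw [c1_true_succ, c0_false_succ]; exact hN i j

lemma subs_not (w : List Bool) (i j : ℕ) : subs (w.map not) i j = subs w j i := by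
  rw [← N_eq_subs, ← N_eq_subs]
  unfold N
  rw [(c_not w i j).1, (c_not w i j).2]
  have : (if i = 0 ∧ j = 0 then 1 else 0) = (if j = 0 ∧ i = 0 then 1 else 0) := by
    by_cases h : i = 0 ∧ j = 0
    · rw [if_pos h, if_pos h.symm]
    · rw [if_neg h, if_neg (fun h' => h h'.symm)]
  rw [this]
  ring

/-! ### runs -/

/-- the lengths of all runs -/
def gaps (w : List Bool) : List ℕ := (gp w).1 :: (gp w).2

lemma gp_append (u t : List Bool) :
    gp (u ++ false :: t) = ((gp u).1, (gp u).2 ++ gaps t) := by
  induction u with
  | nil => rfl
  | cons b u ih =>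
    cases b with
    | true => show ((gp (u ++ false :: t)).1 + 1, (gp (u ++ false :: t)).2) = _; rw [ih]; rfl
    | false =>
      show (0, (gp (u ++ false :: t)).1 :: (gp (u ++ false :: t)).2) = _
      rw [ih]; rfl

lemma gaps_append (u t : List Bool) : gaps (u ++ false :: t) = gaps u ++ gaps t := by
  show (gp (u ++ false :: t)).1 :: (gp (u ++ false :: t)).2 = _
  rw [gp_append]
  rfl

lemma gp_of_not_mem (w : List Bool) (h : false ∉ w) : gp w = (w.length, []) := by
  induction w with
  | nil => rfl
  | cons b w ih =>
    cases b with
    | true =>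
      have := ih (fun h' => h (List.mem_cons_of_mem _ h'))
      show ((gp w).1 + 1, (gp w).2) = _
      rw [this]; rfl
    | false => exact absurd List.mem_cons_self h

lemma gaps_reverse (n : ℕ) : ∀ w : List Bool, w.length ≤ n →
    (gaps w.reverse).Perm (gaps w) := by
  induction n with
  | zero =>
    intro w hw
    have : w = [] := List.length_eq_zero_iff.mp (Nat.le_zero.mp hw)
    subst this
    exact List.Perm.refl _
  | succ n ih =>
    intro w hw
    by_cases h : false ∈ w
    · obtain ⟨u, t, rfl⟩ := List.append_of_mem h
      have hl : u.length + (t.length + 1) ≤ n + 1 := by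
        simpa [List.length_append] using hw
      rw [List.reverse_append, List.reverse_cons, List.append_assoc, List.singleton_append,
        gaps_append, gaps_append]
      exact ((ih t (by omega)).append (ih u (by omega))).trans List.perm_append_comm
    · have h' : false ∉ w.reverse := by rwa [List.mem_reverse]
      unfold gaps
      rw [gp_of_not_mem w h, gp_of_not_mem _ h', List.length_reverse]

lemma split_false (w : List Bool) : (w.splitOn false).map List.length = gaps w := by
  induction w with
  | nil => rfl
  | cons b w ih =>
    unfold List.splitOn at ih ⊢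
    rw [List.splitOnP_cons_eq_if_modifyHead]
    cases b with
    | true =>
      rw [if_neg (by decide)]
      rcases hs : List.splitOnP (fun x => x == false) w with _ | ⟨g, l⟩
      · exact absurd hs (List.splitOnP_ne_nil _ _)
      · rw [hs] at ih
        rw [List.modifyHead_cons, List.map_cons, List.length_cons]
        rw [List.map_cons] at ih
        unfold gaps at ih ⊢
        rw [List.cons.injEq] at ih
        show _ = ((gp w).1 + 1) :: (gp w).2
        rw [ih.1, ih.2]
    | false =>
      rw [if_pos (by decide), List.map_cons, ih]
      rfl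

lemma split_true (w : List Bool) : (w.splitOn true).map List.length = gaps (w.map not) := by
  induction w with
  | nil => rfl
  | cons b w ih =>
    unfold List.splitOn at ih ⊢
    rw [List.splitOnP_cons_eq_if_modifyHead]
    cases b with
    | false =>
      rw [if_neg (by decide)]
      rcases hs : List.splitOnP (fun x => x == true) w with _ | ⟨g, l⟩
      · exact absurd hs (List.splitOnP_ne_nil _ _)
      · rw [hs] at ih
        rw [List.modifyHead_cons, List.map_cons, List.length_cons]
        rw [List.map_cons] at ih
        unfold gaps at ih ⊢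
        rw [List.cons.injEq] at ih
        show _ = ((gp (w.map not)).1 + 1) :: (gp (w.map not)).2
        rw [ih.1, ih.2]
    | true =>
      rw [if_pos (by decide), List.map_cons, ih]
      rfl

lemma longRuns_iff (v : List Bool) :
    LongRuns false v ↔ ∀ g ∈ gaps v.reverse, v.reverse.count false ≤ g := by
  rw [List.count_reverse]
  have h : ∀ g, g ∈ gaps v.reverse ↔ g ∈ (v.splitOn false).map List.length := by
    intro g
    rw [split_false]
    exact (gaps_reverse v.length v le_rfl).mem_iff
  unfold LongRuns
  constructor
  · intro h1 g hg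
    rw [h, List.mem_map] at hg
    obtain ⟨x, hx, rfl⟩ := hg
    exact h1 x hx
  · intro h1 x hx
    exact h1 x.length ((h _).mpr (List.mem_map.mpr ⟨x, hx, rfl⟩))

lemma count_not (v : List Bool) : (v.map not).count false = v.count true ∧
    (v.map not).count true = v.count false := by
  induction v with
  | nil => exact ⟨rfl, rfl⟩
  | cons b v ih =>
    cases b <;> simp only [List.map_cons, Bool.not_true, Bool.not_false, List.count_cons_self,
      ih.1, ih.2, List.count_cons_of_ne, ne_eq, Bool.false_eq_true, Bool.true_eq_false,
      not_false_eq_true, and_self]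

lemma longRuns_not (v : List Bool) : LongRuns false (v.map not) ↔ LongRuns true v := by
  have h : ((v.map not).splitOn false).map List.length = (v.splitOn true).map List.length := by
    rw [split_false, split_true]
  unfold LongRuns
  rw [(count_not v).1]
  constructor
  · intro h1 x hx
    have : x.length ∈ ((v.map not).splitOn false).map List.length := by
      rw [h]; exact List.mem_map.mpr ⟨x, hx, rfl⟩
    obtain ⟨y, hy, e⟩ := List.mem_map.mp this
    rw [← e]; exact h1 y hy
  · intro h1 x hx
    have : x.length ∈ (v.splitOn true).map List.length := by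
      rw [← h]; exact List.mem_map.mpr ⟨x, hx, rfl⟩
    obtain ⟨y, hy, e⟩ := List.mem_map.mp this
    rw [← e]; exact h1 y hy

/-! ### the probability that the stopped walk is nonnegative -/

/-- the value of the formula -/
noncomputable def pos (p : ℝ) (v : List Bool) : ℝ := p +
  ∑ k ∈ range (v.length+1), (p * (1 - p)) ^ (k + 1) *
    ((subs v k (k+1) : ℝ) - (1 - p) * (subs v (k+1) (k+1) : ℝ))

theorem tail_pos (p : ℝ) (hp0 : p ≠ 0) (hp1 : 1 - p ≠ 0) (v : List Bool) :
    p * (tlp p v.reverse).1 (0 - 1) + (1 - p) * (tlp p v.reverse).2 (0 + 1) = pos p v := by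
  rw [tail_exact p hp0 hp1 v.length v.reverse (by simp)]
  unfold pos
  congr 1
  refine Finset.sum_congr rfl fun k _ => ?_
  rw [N_eq_subs, N_eq_subs, subs_reverse, subs_reverse]

lemma term_nonneg (p : ℝ) (hp : 1 / 2 ≤ p) (hp1 : p < 1) (v : List Bool) (k : ℕ) :
    0 ≤ (subs v k (k+1) : ℝ) - (1 - p) * (subs v (k+1) (k+1) : ℝ) := by
  have h := N_diag v.reverse k
  rw [N_eq_subs, N_eq_subs, subs_reverse, subs_reverse] at h
  have h' : (subs v (k+1) (k+1) : ℝ) ≤ 2 * (subs v k (k+1) : ℝ) := by exact_mod_cast h
  have h0 : (0 : ℝ) ≤ (subs v k (k+1) : ℝ) := Nat.cast_nonneg _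
  nlinarith

theorem pos_ge (p : ℝ) (hp : 1 / 2 ≤ p) (hp1 : p < 1) (v : List Bool) : p ≤ pos p v := by
  unfold pos
  have : 0 ≤ ∑ k ∈ range (v.length+1), (p * (1 - p)) ^ (k + 1) *
      ((subs v k (k+1) : ℝ) - (1 - p) * (subs v (k+1) (k+1) : ℝ)) :=
    Finset.sum_nonneg fun k _ => mul_nonneg
      (pow_nonneg (mul_nonneg (by linarith) (by linarith)) _) (term_nonneg p hp hp1 v k)
  linarith

lemma pos_term (p : ℝ) (hp : 1 / 2 ≤ p) (hp1 : p < 1) (v : List Bool) (k : ℕ)
    (hk : k < v.length + 1) : p + (p * (1 - p)) ^ (k + 1) *
      ((subs v k (k+1) : ℝ) - (1 - p) * (subs v (k+1) (k+1) : ℝ)) ≤ pos p v := by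
  unfold pos
  have := Finset.single_le_sum (f := fun k => (p * (1 - p)) ^ (k + 1) *
      ((subs v k (k+1) : ℝ) - (1 - p) * (subs v (k+1) (k+1) : ℝ)))
    (fun k _ => mul_nonneg
      (pow_nonneg (mul_nonneg (by linarith) (by linarith)) _) (term_nonneg p hp hp1 v k))
    (Finset.mem_range.mpr hk)
  linarith

theorem pos_poor (p : ℝ) (hp : 1 / 2 ≤ p) (hp1 : p < 1) (v : List Bool)
    (hv : ¬ LongRuns false v) :
    p + (1 - p) * (p * (1 - p)) ^ (min (v.count false) (v.count true + 1)) ≤ pos p v := by
  rw [longRuns_iff] at hv
  push Not at hv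
  obtain ⟨k, hk, hlt⟩ := poor_strict v.reverse hv
  rw [List.count_reverse, List.count_reverse] at hk
  rw [N_eq_subs, N_eq_subs, subs_reverse, subs_reverse] at hlt
  have hkl : k < v.length + 1 := by
    have h1 : v.count false ≤ v.length := List.count_le_length
    have h2 := min_le_left (v.count false) (v.count true + 1)
    omega
  refine le_trans ?_ (pos_term p hp hp1 v k hkl)
  rw [← hk]
  have h3 : (subs v (k+1) (k+1) : ℝ) + 1 ≤ 2 * (subs v k (k+1) : ℝ) := by exact_mod_cast hlt
  have h0 : (0 : ℝ) ≤ (subs v k (k+1) : ℝ) := Nat.cast_nonneg _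
  have h4 : (0 : ℝ) ≤ (p * (1 - p)) ^ (k + 1) :=
    pow_nonneg (mul_nonneg (by linarith) (by linarith)) _
  have h5 : 1 - p ≤ (subs v k (k+1) : ℝ) - (1 - p) * (subs v (k+1) (k+1) : ℝ) := by nlinarith
  nlinarith

theorem pos_eq_of_long (v : List Bool) (hv : LongRuns false v) : pos (1 / 2) v = 1 / 2 := by
  rw [longRuns_iff] at hv
  unfold pos
  rw [Finset.sum_eq_zero, add_zero]
  intro k _
  have h := rich_eq v.reverse (hv _ List.mem_cons_self)
    (fun g hg => hv g (List.mem_cons_of_mem _ hg)) k
  rw [N_eq_subs, N_eq_subs, subs_reverse, subs_reverse] at h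
  have h' : (subs v (k+1) (k+1) : ℝ) = 2 * (subs v k (k+1) : ℝ) := by exact_mod_cast h
  rw [h']
  ring

theorem pos_eq_of_not_mem (p : ℝ) (v : List Bool) (hv : false ∉ v) : pos p v = p := by
  unfold pos
  rw [Finset.sum_eq_zero, add_zero]
  intro k _
  have hc : v.reverse.count false = 0 := by
    rw [List.count_reverse]; exact List.count_eq_zero.mpr hv
  have a := supp0 v.reverse (k+1) (k+1) (by omega)
  have b := supp0 v.reverse k (k+1) (by omega)
  have e : ¬ (k + 1 = 0 ∧ k + 1 = 0) := by omega
  have e' : ¬ (k = 0 ∧ k + 1 = 0) := by omega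
  have h1 : subs v (k+1) (k+1) = 0 := by
    rw [← subs_reverse, ← N_eq_subs]
    unfold N
    rw [if_neg e, a.1, a.2]
  have h2 : subs v k (k+1) = 0 := by
    rw [← subs_reverse, ← N_eq_subs]
    unfold N
    rw [if_neg e', b.1, b.2]
  rw [h1, h2]
  simp

/-- **The equality cases.** -/
theorem pos_eq_iff (p : ℝ) (hp : 1 / 2 ≤ p) (hp1 : p < 1) (v : List Bool) :
    pos p v = p ↔ false ∉ v ∨ (p = 1 / 2 ∧ LongRuns false v) := by
  constructor
  · intro h
    by_contra hno
    push Not at hno
    obtain ⟨hmem, hno⟩ := hno
    by_cases hl : LongRuns false v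
    · have hp2 : p ≠ 1 / 2 := fun h' => hno h' hl
      have hp3 : 1 / 2 < p := lt_of_le_of_ne hp (Ne.symm hp2)
      have hN := N_pos v.reverse 0 1 (Nat.zero_le _) (by
        rw [List.count_reverse]; exact List.count_pos_iff.mpr hmem)
      have hd := N_diag v.reverse 0
      rw [N_eq_subs, subs_reverse] at hN
      rw [N_eq_subs, N_eq_subs, subs_reverse, subs_reverse] at hd
      have h1 : (1 : ℝ) ≤ (subs v 0 (0+1) : ℝ) := by exact_mod_cast hN
      have h2 : (subs v (0+1) (0+1) : ℝ) ≤ 2 * (subs v 0 (0+1) : ℝ) := by exact_mod_cast hd
      have h3 := pos_term p hp hp1 v 0 (Nat.succ_pos _)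
      have h4 : 0 < (subs v 0 (0+1) : ℝ) - (1 - p) * (subs v (0+1) (0+1) : ℝ) := by nlinarith
      have h5 : (0 : ℝ) < (p * (1 - p)) ^ (0 + 1) :=
        pow_pos (mul_pos (by linarith) (by linarith)) _
      have h6 := mul_pos h5 h4
      linarith
    · have h1 := pos_poor p hp hp1 v hl
      have h2 : (0 : ℝ) < (1 - p) * (p * (1 - p)) ^ (min (v.count false) (v.count true + 1)) :=
        mul_pos (by linarith) (pow_pos (mul_pos (by linarith) (by linarith)) _)
      linarith
  · rintro (h | ⟨rfl, h⟩)
    · exact pos_eq_of_not_mem p v h
    · exact pos_eq_of_long v h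

/-- complementing all letters reflects the measures -/
lemma tlp_refl (p : ℝ) (w : List Bool) : ∀ k : ℤ,
    (tlp p (w.map not)).1 k = 1 - (tlp (1 - p) w).2 (1-k) ∧
    (tlp p (w.map not)).2 k = 1 - (tlp (1 - p) w).1 (1-k) := by
  induction w with
  | nil => intro k; exact ⟨one0_refl k, one0_refl k⟩
  | cons b w ih =>
    intro k
    cases b with
    | true =>
      refine ⟨(ih k).1, ?_⟩
      show p * (tlp p (w.map not)).1 (k-1) + (1 - p) * (tlp p (w.map not)).2 (k+1) =
        1 - ((1 - p) * (tlp (1 - p) w).1 (1-k-1) + (1 - (1 - p)) * (tlp (1 - p) w).2 (1-k+1))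
      rw [(ih (k-1)).1, (ih (k+1)).2, show 1 - (k-1) = 1 - k + 1 by ring,
        show 1 - (k + 1) = 1 - k - 1 by ring]
      ring
    | false =>
      refine ⟨?_, (ih k).2⟩
      show p * (tlp p (w.map not)).1 (k-1) + (1 - p) * (tlp p (w.map not)).2 (k+1) =
        1 - ((1 - p) * (tlp (1 - p) w).1 (1-k-1) + (1 - (1 - p)) * (tlp (1 - p) w).2 (1-k+1))
      rw [(ih (k-1)).1, (ih (k+1)).2, show 1 - (k-1) = 1 - k + 1 by ring,
        show 1 - (k + 1) = 1 - k - 1 by ring]
      ring

lemma not_not_map (v : List Bool) : (v.map not).map not = v := by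
  rw [List.map_map]
  have : not ∘ not = id := by funext b; cases b <;> rfl
  rw [this, List.map_id]

/-- the probability that the stopped walk is positive -/
theorem tail_one (p : ℝ) (hp0 : p ≠ 0) (hp1 : 1 - p ≠ 0) (v : List Bool) :
    p * (tlp p v.reverse).1 (1 - 1) + (1 - p) * (tlp p v.reverse).2 (1 + 1) =
      1 - pos (1 - p) (v.map not) := by
  have h := tail_pos (1 - p) hp1 (by simpa using hp0) (v.map not)
  rw [← h, ← List.map_reverse]
  have e := tlp_refl p (v.reverse.map not)
  rw [not_not_map] at e
  rw [(e (1 - 1)).1, (e (1 + 1)).2]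
  norm_num
  ring

end Pool.Agent.Y21.CUB
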